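import Pool.Agent.Helper69.MC.StD
import Pool.Agent.Helper69.MF.StA

/-!
# Project MC (MP_9583f0_gt), module MNT
-/

set_option autoImplicit false

namespace Pool.Agent.Helper88.MC

open Set Topology Filter MeasureTheory
open Pool.Agent.Helper31.CY Pool.Agent.Helper69.MF Pool.Agent.Helper69.MC

/-- a segment in the complement of `Γ` gives a homotopy of constant paths -/
theorem seg_hot (Γ : Set E3) (a b : E3)
    (hs : ∀ t : ℝ, 0 ≤ t → t ≤ 1 → a + t • (b - a) ∉ Γ) :
    Hot Γ (fun _ => a) (fun _ => b) := by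
  refine ⟨fun q => a + (q.1 : ℝ) • (b - a), ?_, ?_, ?_, ?_, ?_⟩
  · exact continuous_const.add ((continuous_subtype_val.comp continuous_fst).smul continuous_const)
  · intro s
    simp
  · intro s
    simp
  · intro t
    rfl
  · intro q
    exact hs _ q.1.2.1 q.1.2.2

/-- MNT -/
theorem hMNT : Pool.Agent.Helper69.MF.StHTE → StMNT := by
  intro _ K0 K1 h S 𝒞 hh hHC hM hSp
  obtain ⟨hcomp, hspC, hmin⟩ := hM
  refine ⟨hcomp, hSp, ?_⟩
  intro S' hS' hS'sp
  apply hmin S' hS'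
  intro γ hγ
  have hLp := hHC.1 γ hγ
  by_contra hno
  have hnotNT : γ ∉ NT (Gm K0 K1 h) := fun hN => hno (hS'sp γ hN)
  have hex : ∃ c : E3, Hot (Gm K0 K1 h) γ (fun _ => c) := by
    by_contra hne
    exact hnotNT ⟨hLp, hne⟩
  obtain ⟨c, hc⟩ := hex
  have hcC : (fun _ => c) ∈ 𝒞 := hHC.2 γ hγ _ hc
  have hcΓ : c ∉ Gm K0 K1 h := by
    obtain ⟨H, -, -, h1, -, h3⟩ := hc
    have := h3 (1, 0)
    rwa [h1 0] at this
  -- the height
  obtain ⟨z, hz0, hzh, hzseg⟩ : ∃ z : ℝ, z ≠ 0 ∧ z ≠ h ∧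
      ∀ t : ℝ, 0 ≤ t → t ≤ 1 → t ≠ 0 → c 2 + t * (z - c 2) ≠ 0 ∧ c 2 + t * (z - c 2) ≠ h := by
    by_cases h0 : c 2 = 0
    · refine ⟨-(h / 2), by linarith [hh] |> fun hx : -(h / 2) < 0 => hx.ne, by
        have : -(h / 2) < h := by linarith
        exact this.ne, ?_⟩
      intro t ht0 ht1 htne
      have htpos : 0 < t := lt_of_le_of_ne ht0 (Ne.symm htne)
      rw [h0]
      have h1 : 0 + t * (-(h / 2) - 0) < 0 := by nlinarith
      exact ⟨h1.ne, (h1.trans hh).ne⟩
    · by_cases h1 : c 2 = h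
      · refine ⟨h / 2, by
          have : 0 < h / 2 := by linarith
          exact this.ne', by
          have : h / 2 < h := by linarith
          exact this.ne, ?_⟩
        intro t ht0 ht1 htne
        have htpos : 0 < t := lt_of_le_of_ne ht0 (Ne.symm htne)
        rw [h1]
        have h2 : 0 < h + t * (h / 2 - h) := by nlinarith
        have h3 : h + t * (h / 2 - h) < h := by nlinarith
        exact ⟨h2.ne', h3.ne⟩
      · refine ⟨c 2, h0, h1, ?_⟩
        intro t _ _ _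
        simp [h0, h1]
  -- the point with the same horizontal part and height z
  have hc1C : (fun _ : unitInterval => pt (c 0) (c 1) z) ∈ 𝒞 := by
    refine hHC.2 _ hcC _ (seg_hot _ _ _ ?_)
    intro t ht0 ht1 hmem
    by_cases ht : t = 0
    · apply hcΓ
      rw [ht] at hmem
      simpa using hmem
    · obtain ⟨k0, kh⟩ := hzseg t ht0 ht1 ht
      have hco : (c + t • (pt (c 0) (c 1) z - c)) 2 = c 2 + t * (z - c 2) := by
        simp [pt]
      rcases hmem with hm | hm
      · exact k0 (by rw [← hco]; exact hm.2)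
      · exact kh (by rw [← hco]; exact hm.2)
  -- a far point
  obtain ⟨M, hM⟩ := hcomp.isBounded.exists_norm_le
  have hfar : ∃ m : ℝ, pt m (c 1) z ∉ S := by
    refine ⟨|M| + 1, fun hmem => ?_⟩
    have h1 := hM _ hmem
    have h2 : |(pt (|M| + 1) (c 1) z) 0| ≤ ‖pt (|M| + 1) (c 1) z‖ := by
      have := EuclideanSpace.norm_eq (pt (|M| + 1) (c 1) z)
      rw [this]
      apply Real.le_sqrt_of_sq_le
      rw [Fin.sum_univ_three]
      have e0 : ‖(pt (|M| + 1) (c 1) z) 0‖ ^ 2 = |(pt (|M| + 1) (c 1) z) 0| ^ 2 := by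
        rw [Real.norm_eq_abs]
      rw [e0]
      have e1 := sq_nonneg ‖(pt (|M| + 1) (c 1) z) 1‖
      have e2 := sq_nonneg ‖(pt (|M| + 1) (c 1) z) 2‖
      linarith
    have h3 : (pt (|M| + 1) (c 1) z) 0 = |M| + 1 := by simp [pt]
    rw [h3, abs_of_nonneg (by positivity)] at h2
    have := le_abs_self M
    linarith
  obtain ⟨m, hm⟩ := hfar
  have hc2C : (fun _ : unitInterval => pt m (c 1) z) ∈ 𝒞 := by
    refine hHC.2 _ hc1C _ (seg_hot _ _ _ ?_)
    intro t ht0 ht1 hmem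
    have hco : (pt (c 0) (c 1) z + t • (pt m (c 1) z - pt (c 0) (c 1) z)) 2 = z := by
      simp [pt]
    rcases hmem with hm | hm
    · exact hz0 (by rw [← hco]; exact hm.2)
    · exact hzh (by rw [← hco]; exact hm.2)
  obtain ⟨s, hs⟩ := hspC _ hc2C
  exact hm hs

end Pool.Agent.Helper88.MC
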